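import Mathlib

/-!
# Linear lattices: definitions
-/

set_option autoImplicit false

namespace Pool.Agent.Helper44.LL

/-- The lattice is linear: it is isomorphic to a lattice of pairwise commuting equivalence relations. -/
def IsLinear (L : Type) [Lattice L] : Prop :=
  ∃ (α : Type) (f : LatticeHom L (Setoid α)), Function.Injective f ∧
    ∀ (x y : L) (a b : α),
      (∃ c : α, (f x).r a c ∧ (f y).r c b) ↔ (∃ c : α, (f y).r a c ∧ (f x).r c b)

/-- `o` is the least element of `M`, and the homomorphism `g` is determined by the elements which it maps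
to `o`: if `g x ≤ g y`, then `x ≤ y ⊔ i` for some `i` with `g i = o`. -/
def IdealDetermined {L M : Type} [Lattice L] [Lattice M] (g : LatticeHom L M) (o : M) : Prop :=
  (∀ m : M, o ≤ m) ∧ ∀ x y : L, g x ≤ g y → ∃ i : L, g i = o ∧ x ≤ y ⊔ i

/-- The lattice (with least element `⊥`) is sectionally complemented: if `x ≤ y`, then `x` has a complement
in the interval from `⊥` to `y`. -/
def SectionallyComplemented (L : Type) [Lattice L] [OrderBot L] : Prop :=
  ∀ x y : L, x ≤ y → ∃ i : L, x ⊓ i = ⊥ ∧ x ⊔ i = y

end Pool.Agent.Helper44.LL
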