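import Pool.Agent.Helper44.LL.Defs

set_option autoImplicit false

namespace Pool.Agent.Helper44.LL

/-- the join of commuting equivalence relations -/
theorem sup_iff {α : Type} (r s : Setoid α)
    (h : ∀ a b, (∃ c, r.r a c ∧ s.r c b) ↔ (∃ c, s.r a c ∧ r.r c b)) (a b : α) :
    (r ⊔ s).r a b ↔ ∃ c, r.r a c ∧ s.r c b := by
  constructor
  · let t : Setoid α :=
      { r := fun a b => ∃ c, r.r a c ∧ s.r c b
        iseqv := ⟨fun a => ⟨a, r.refl a, s.refl a⟩, by
          rintro a b ⟨c, h1, h2⟩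
          exact (h b a).2 ⟨c, s.symm h2, r.symm h1⟩, by
          rintro a b c ⟨d, h1, h2⟩ ⟨e, h3, h4⟩
          obtain ⟨w, h5, h6⟩ := (h d e).2 ⟨b, h2, h3⟩
          exact ⟨w, r.trans h1 h5, s.trans h6 h4⟩⟩ }
    have h1 : r ≤ t := fun a b hab => ⟨b, hab, s.refl b⟩
    have h2 : s ≤ t := fun a b hab => ⟨a, r.refl a, hab⟩
    intro hab
    exact (sup_le h1 h2 : r ⊔ s ≤ t) hab
  · rintro ⟨c, h1, h2⟩
    exact (r ⊔ s).trans ((le_sup_left : r ≤ r ⊔ s) h1) ((le_sup_right : s ≤ r ⊔ s) h2)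

theorem main {L M : Type} [Lattice L] [Lattice M] (g : LatticeHom L M) (hg : Function.Surjective g) (o : M)
    (ho : IdealDetermined g o) (hL : IsLinear L) : IsLinear M := by
  obtain ⟨ho1, ho2⟩ := ho
  obtain ⟨α, f, hf, hc⟩ := hL
  have hle : ∀ x y : L, f x ≤ f y → x ≤ y := by
    intro x y hxy
    have : f (x ⊔ y) = f y := by rw [map_sup, sup_eq_right.2 hxy]
    exact sup_eq_right.1 (hf this)
  have hmono : ∀ x y : L, x ≤ y → ∀ a b, (f x).r a b → (f y).r a b := by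
    intro x y hxy a b hab
    exact (OrderHomClass.mono f hxy : f x ≤ f y) hab
  let I := {i : L // g i = o}
  let j2 : I → I → I := fun i k => ⟨i.1 ⊔ k.1, by rw [map_sup, i.2, k.2, sup_idem]⟩
  obtain ⟨i0, hi0⟩ := hg o
  let H : L → Setoid (I → α) := fun x =>
    { r := fun u v => ∃ i : I, ∀ j : I, i.1 ≤ j.1 → (f (x ⊔ i.1)).r (u j) (v j)
      iseqv := ⟨fun u => ⟨⟨i0, hi0⟩, fun j _ => (f _).refl _⟩, by
        rintro u v ⟨i, hi⟩
        exact ⟨i, fun j hj => (f _).symm (hi j hj)⟩, by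
        rintro u v w ⟨i, hi⟩ ⟨k, hk⟩
        refine ⟨j2 i k, fun j hj => (f _).trans (hmono _ _ ?_ _ _ (hi j (le_sup_left.trans hj)))
          (hmono _ _ ?_ _ _ (hk j (le_sup_right.trans hj)))⟩
        · exact sup_le_sup_left le_sup_left _
        · exact sup_le_sup_left le_sup_right _⟩ }
  have hH1 : ∀ x y, g x ≤ g y → H x ≤ H y := by
    rintro x y hxy u v ⟨i, hi⟩
    obtain ⟨k, hk, hxk⟩ := ho2 x y hxy
    refine ⟨j2 i ⟨k, hk⟩, fun j hj => hmono _ _ ?_ _ _ (hi j (le_sup_left.trans hj))⟩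
    change x ⊔ i.1 ≤ y ⊔ (i.1 ⊔ k)
    refine sup_le (hxk.trans (sup_le_sup_left le_sup_right _)) (le_sup_left.trans le_sup_right)
  have hH2 : ∀ x y, H x ≤ H y → g x ≤ g y := by
    intro x y hxy
    by_contra hcon
    have h1 : ∀ j : I, ∃ a b, (f x).r a b ∧ ¬ (f (y ⊔ j.1)).r a b := by
      intro j
      by_contra h2
      push Not at h2
      apply hcon
      have h3 : x ≤ y ⊔ j.1 := hle _ _ fun a b hab => h2 a b hab
      have h4 := OrderHomClass.mono g h3
      rw [map_sup, j.2, sup_eq_left.2 (ho1 _)] at h4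
      exact h4
    choose u v huv using h1
    have h5 : (H x).r u v := ⟨⟨i0, hi0⟩, fun j _ => hmono _ _ le_sup_left _ _ (huv j).1⟩
    obtain ⟨i, hi⟩ := hxy h5
    exact (huv i).2 (hi i le_rfl)
  have hHc : ∀ x y u v, (∃ w, (H x).r u w ∧ (H y).r w v) → ∃ w, (H y).r u w ∧ (H x).r w v := by
    classical
    rintro x y u v ⟨w, ⟨i, hi⟩, ⟨k, hk⟩⟩
    have h1 : ∀ j : I, (j2 i k).1 ≤ j.1 → ∃ c, (f (y ⊔ (j2 i k).1)).r (u j) c ∧
        (f (x ⊔ (j2 i k).1)).r c (v j) := by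
      intro j hj
      refine (hc _ _ _ _).1 ⟨w j, hmono _ _ ?_ _ _ (hi j (le_sup_left.trans hj)),
        hmono _ _ ?_ _ _ (hk j (le_sup_right.trans hj))⟩
      · exact sup_le_sup_left le_sup_left _
      · exact sup_le_sup_left le_sup_right _
    choose c hc' using h1
    refine ⟨fun j => if hj : (j2 i k).1 ≤ j.1 then c j hj else u j, ⟨j2 i k, fun j hj => ?_⟩,
      ⟨j2 i k, fun j hj => ?_⟩⟩
    · simp only [dif_pos hj]
      exact (hc' j hj).1
    · simp only [dif_pos hj]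
      exact (hc' j hj).2
  have hsup : ∀ x y, H (x ⊔ y) = H x ⊔ H y := by
    classical
    intro x y
    refine le_antisymm ?_ (sup_le (hH1 _ _ (OrderHomClass.mono g le_sup_left))
      (hH1 _ _ (OrderHomClass.mono g le_sup_right)))
    rintro u v ⟨i, hi⟩
    have h1 : ∀ j : I, i.1 ≤ j.1 → ∃ c, (f (x ⊔ i.1)).r (u j) c ∧ (f (y ⊔ i.1)).r c (v j) := by
      intro j hj
      have h2 := hi j hj
      have h3 : x ⊔ y ⊔ i.1 = (x ⊔ i.1) ⊔ (y ⊔ i.1) := sup_sup_distrib_right x y i.1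
      rw [h3, map_sup] at h2
      exact (sup_iff _ _ (hc _ _) _ _).1 h2
    choose c hc' using h1
    let w : I → α := fun j => if hj : i.1 ≤ j.1 then c j hj else u j
    have h4 : (H x).r u w := ⟨i, fun j hj => by
      simp only [w, dif_pos hj]
      exact (hc' j hj).1⟩
    have h5 : (H y).r w v := ⟨i, fun j hj => by
      simp only [w, dif_pos hj]
      exact (hc' j hj).2⟩
    exact (H x ⊔ H y).trans ((le_sup_left : H x ≤ H x ⊔ H y) h4) ((le_sup_right : H y ≤ H x ⊔ H y) h5)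
  have hinf : ∀ x y, H (x ⊓ y) = H x ⊓ H y := by
    intro x y
    refine le_antisymm (le_inf (hH1 _ _ (OrderHomClass.mono g inf_le_left))
      (hH1 _ _ (OrderHomClass.mono g inf_le_right))) ?_
    rintro u v ⟨⟨i, hi⟩, ⟨k, hk⟩⟩
    let z := (x ⊔ (j2 i k).1) ⊓ (y ⊔ (j2 i k).1)
    have h1 : (H z).r u v := by
      refine ⟨j2 i k, fun j hj => hmono z _ le_sup_left _ _ ?_⟩
      have h2 : f z = f (x ⊔ (j2 i k).1) ⊓ f (y ⊔ (j2 i k).1) := map_inf f _ _
      rw [h2]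
      refine ⟨hmono _ _ ?_ _ _ (hi j (le_sup_left.trans hj)), hmono _ _ ?_ _ _ (hk j (le_sup_right.trans hj))⟩
      · exact sup_le_sup_left le_sup_left _
      · exact sup_le_sup_left le_sup_right _
    refine hH1 z _ ?_ h1
    have h3 : g z = (g x ⊔ g (j2 i k).1) ⊓ (g y ⊔ g (j2 i k).1) := by
      change g ((x ⊔ (j2 i k).1) ⊓ (y ⊔ (j2 i k).1)) = _
      rw [map_inf g, map_sup g x, map_sup g y]
    rw [h3, (j2 i k).2, sup_eq_left.2 (ho1 _), sup_eq_left.2 (ho1 _), map_inf]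
  -- the representation of `M`
  choose s hs using hg
  have heq : ∀ x y, g x = g y → H x = H y := fun x y h =>
    le_antisymm (hH1 _ _ h.le) (hH1 _ _ h.ge)
  refine ⟨I → α, { toFun := fun m => H (s m), map_sup' := fun m m' => ?_, map_inf' := fun m m' => ?_ },
    fun m m' h => ?_, fun m m' u v => ⟨hHc _ _ u v, hHc _ _ u v⟩⟩
  · change H (s (m ⊔ m')) = H (s m) ⊔ H (s m')
    rw [← hsup]
    exact heq _ _ (by rw [map_sup, hs, hs, hs])
  · change H (s (m ⊓ m')) = H (s m) ⊓ H (s m')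
    rw [← hinf]
    exact heq _ _ (by rw [map_inf, hs, hs, hs])
  · have h' : H (s m) = H (s m') := h
    have h1 := hH2 _ _ h'.le
    have h2 := hH2 _ _ h'.ge
    rw [hs, hs] at h1 h2
    exact le_antisymm h1 h2

/-- sectionally complemented lattices -/
theorem sec {L M : Type} [Lattice L] [OrderBot L] [Lattice M] (hs : SectionallyComplemented L)
    (g : LatticeHom L M) (hg : Function.Surjective g) (hL : IsLinear L) : IsLinear M := by
  refine main g hg (g ⊥) ⟨fun m => ?_, fun x y hxy => ?_⟩ hL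
  · obtain ⟨x, rfl⟩ := hg m
    exact OrderHomClass.mono g bot_le
  · obtain ⟨i, h1, h2⟩ := hs (x ⊓ y) x inf_le_left
    refine ⟨i, ?_, ?_⟩
    · have h3 : g i ≤ g x := OrderHomClass.mono g (by rw [← h2]; exact le_sup_right)
      have h4 : g i ≤ g (x ⊓ y) := by
        rw [map_inf]
        exact le_inf h3 (h3.trans hxy)
      calc g i = g (x ⊓ y) ⊓ g i := (inf_eq_right.2 h4).symm
        _ = g ⊥ := by rw [← map_inf g (x ⊓ y) i, h1]
    · calc x = (x ⊓ y) ⊔ i := h2.symm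
        _ ≤ y ⊔ i := sup_le_sup_right inf_le_right _

end Pool.Agent.Helper44.LL
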